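import Mathlib

/-!
# Tilting resolutions of equivariant modules with good filtration

Let `G` be a connected reductive group over an algebraically closed field `k` of positive characteristic,
`S` a finitely generated commutative `G`-algebra with a good filtration and `M` a finitely generated
`(G, S)`-module with a good filtration. The theorem: there are a tilting module `T` and a surjective
homomorphism of `(G, S)`-modules `φ : T ⊗ S → M` whose kernel has a good filtration. So Q1 has a positive
answer.

The modules are the rational ones (`Rational`), the notions are the ones of the page: `Filtered` is the existence of an exhaustive ascending chain of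
stable submodules with subquotients `∇(l)` (resp. `Δ(l)`), a tilting module is a finite dimensional module
with both kinds of filtrations. `Reductive` lists the known theorems which are used (they are theorems of
Cline, Parshall, Scott, van der Kallen, Donkin, Mathieu, Grosshans, see Jantzen, *Representations of algebraic
groups*, II.2, II.4, II.E), for the unipotent radical `U` of the positive Borel subgroup:
`Hom_G(Δ(l), V)` is the weight space `(V^U)_l` for all rational modules `V`, so the vanishing of
`Ext¹(Δ(l), W)` for all `l` gives the surjectivity of `V^U → (V/W)^U`, and conversely if `V` has a good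
filtration.

The proof. The module `M^U` is generated over `S^U` by finitely many elements `m_i` (Grosshans). There are
tilting modules `T_i` with homomorphisms `f_i : T_i → M` and `v_i` in `T_i^U` with `f_i (v_i) = m_i`. Let `T` be
the sum of the `T_i` and `φ (t ⊗ s) = s ∑ f_i (t_i)`. The `∑ s_i m_i`, `s_i` in `S^U`, are the images of the
`∑ v_i ⊗ s_i` in `(T ⊗ S)^U`, so `φ` is surjective on the vectors fixed by `U`. By the theorem of Donkin and
Mathieu `T ⊗ S` has a good filtration, so the kernel of `φ` has one, by Donkin's criterion; then the image of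
`φ` has one, and the cokernel of `φ` has no vectors fixed by `U`, so it is zero (`ker_good`).

The argument is due to helper5; formalized by helper978.
-/

set_option autoImplicit false

namespace Pool.Agent.Results.MP_720b6c_al.TiltingResolutions

open TensorProduct

section defs

variable {k G : Type} [Field k] [Group G]

/-- The linear map `f` commutes with the action of `G`. -/
def Equivariant {V W : Type} [AddCommGroup V] [Module k V] [AddCommGroup W] [Module k W]
    (ρ : Representation k G V) (σ : Representation k G W) (f : V →ₗ[k] W) : Prop :=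
  ∀ g v, f (ρ g v) = σ g (f v)

/-- The vector `v` is fixed by the elements of `U`. -/
def Fixed (U : Subgroup G) {V : Type} [AddCommGroup V] [Module k V] (ρ : Representation k G V)
    (v : V) : Prop :=
  ∀ u ∈ U, ρ u v = v

/-- The direct sum of `r` representations. -/
noncomputable def piRep {r : ℕ} {V : Fin r → Type} [∀ i, AddCommGroup (V i)] [∀ i, Module k (V i)]
    (ρ : ∀ i, Representation k G (V i)) : Representation k G (∀ i, V i) where
  toFun g := LinearMap.pi fun i => (ρ i g).comp (LinearMap.proj i)
  map_one' := by
    ext v i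
    simp
  map_mul' g h := by
    ext v i
    simp

/-- `V` has an exhaustive ascending chain `0 = N 0 ≤ N 1 ≤ ...` of submodules stable under `G`, all
subquotients of which are zero or isomorphic to one of the modules `E l`. -/
def Filtered {Λ : Type} {E : Λ → Type} [∀ l, AddCommGroup (E l)] [∀ l, Module k (E l)]
    (ε : ∀ l, Representation k G (E l)) {V : Type} [AddCommGroup V] [Module k V]
    (ρ : Representation k G V) : Prop :=
  ∃ N : ℕ → Submodule k V, N 0 = ⊥ ∧ (∀ i, N i ≤ N (i + 1)) ∧ (∀ i g, N i ≤ (N i).comap (ρ g)) ∧
    (∀ v, ∃ i, v ∈ N i) ∧ ∀ i, N (i + 1) = N i ∨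
      ∃ (l : Λ) (f : N (i + 1) →ₗ[k] E l), Function.Surjective f ∧
        (∀ v : N (i + 1), f v = 0 ↔ (v : V) ∈ N i) ∧
        ∀ (g : G) (v w : N (i + 1)), (w : V) = ρ g v → f w = ε l g (f v)

/-- `S` is a `G`-algebra: the group acts by automorphisms of algebras. -/
def IsGAlgebra {S : Type} [CommRing S] [Algebra k S] (σ : Representation k G S) : Prop :=
  (∀ g a b, σ g (a * b) = σ g a * σ g b) ∧ ∀ g, σ g 1 = 1

/-- `M` is a `(G, S)`-module: `g (s m) = (g s) (g m)`. -/
def IsGModule {S M : Type} [CommRing S] [Algebra k S] [AddCommGroup M] [Module k M] [Module S M]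
    (σ : Representation k G S) (ρ : Representation k G M) : Prop :=
  ∀ g (s : S) (m : M), ρ g (s • m) = σ g s • ρ g m

end defs

/-- The known facts on the rational modules with good filtrations of the connected reductive group `G`
over the algebraically closed field `k` (`G` stands for the group of its `k`-points). -/
structure Reductive (k G : Type) [Field k] [Group G] where
  /-- the unipotent radical of the positive Borel subgroup -/
  U : Subgroup G
  /-- the rational representations (among the representations of the abstract group `G`) -/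
  Rational : ∀ {V : Type} [AddCommGroup V] [Module k V], Representation k G V → Prop
  /-- the dominant weights -/
  Λ : Type
  /-- the induced modules `∇(l)` -/
  nabla : Λ → Type
  [nablaGroup : ∀ l, AddCommGroup (nabla l)]
  [nablaModule : ∀ l, Module k (nabla l)]
  nablaRep : ∀ l, Representation k G (nabla l)
  /-- the Weyl modules `Δ(l)` -/
  delta : Λ → Type
  [deltaGroup : ∀ l, AddCommGroup (delta l)]
  [deltaModule : ∀ l, Module k (delta l)]
  deltaRep : ∀ l, Representation k G (delta l)
  /-- the property to have a good filtration is invariant under isomorphisms -/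
  good_equiv : ∀ {V W : Type} [AddCommGroup V] [Module k V] [AddCommGroup W] [Module k W]
    (ρ : Representation k G V) (σ : Representation k G W) (e : V ≃ₗ[k] W),
    Equivariant ρ σ e.toLinearMap → Rational ρ ∧ Filtered nablaRep ρ → Rational σ ∧ Filtered nablaRep σ
  /-- if `V` and the submodule `W` have good filtrations, then `V^U → (V/W)^U` is surjective
  (`Ext¹(Δ(l), W) = 0`) -/
  lift : ∀ {V : Type} [AddCommGroup V] [Module k V] (ρ : Representation k G V) (W : Submodule k V)
    (h : ∀ g, W ≤ W.comap (ρ g)), Rational ρ ∧ Filtered nablaRep ρ → Rational (ρ.subrepresentation W h) ∧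
      Filtered nablaRep (ρ.subrepresentation W h) →
    ∀ x : V ⧸ W, Fixed U (ρ.quotient W h) x → ∃ v, Fixed U ρ v ∧ Submodule.Quotient.mk v = x
  /-- the criterion of Donkin: if `V` has a good filtration and `V^U → (V/W)^U` is surjective, then `W`
  has a good filtration (`Ext¹(Δ(l), W) = 0`) -/
  sub : ∀ {V : Type} [AddCommGroup V] [Module k V] (ρ : Representation k G V) (W : Submodule k V)
    (h : ∀ g, W ≤ W.comap (ρ g)), Rational ρ ∧ Filtered nablaRep ρ →
    (∀ x : V ⧸ W, Fixed U (ρ.quotient W h) x → ∃ v, Fixed U ρ v ∧ Submodule.Quotient.mk v = x) →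
    Rational (ρ.subrepresentation W h) ∧
      Filtered nablaRep (ρ.subrepresentation W h)
  /-- if `V` and the submodule `W` have good filtrations, then `V/W` has one -/
  quot : ∀ {V : Type} [AddCommGroup V] [Module k V] (ρ : Representation k G V) (W : Submodule k V)
    (h : ∀ g, W ≤ W.comap (ρ g)), Rational ρ ∧ Filtered nablaRep ρ → Rational (ρ.subrepresentation W h) ∧
      Filtered nablaRep (ρ.subrepresentation W h) →
    Rational (ρ.quotient W h) ∧ Filtered nablaRep (ρ.quotient W h)
  /-- `U` is unipotent: a rational module without fixed vectors of `U` is zero -/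
  fixed : ∀ {V : Type} [AddCommGroup V] [Module k V] (ρ : Representation k G V) (W : Submodule k V)
    (h : ∀ g, W ≤ W.comap (ρ g)), Rational ρ ∧ Filtered nablaRep ρ →
    (∀ x : V ⧸ W, Fixed U (ρ.quotient W h) x → x = 0) → W = ⊤
  /-- direct sums of tilting modules are tilting modules -/
  tilting_sum : ∀ {r : ℕ} {V : Fin r → Type} [∀ i, AddCommGroup (V i)] [∀ i, Module k (V i)]
    (ρ : ∀ i, Representation k G (V i)),
    (∀ i, Module.Finite k (V i) ∧ (Rational (ρ i) ∧ Filtered nablaRep (ρ i)) ∧
      Filtered deltaRep (ρ i)) →
    (Rational (piRep ρ) ∧ Filtered nablaRep (piRep ρ)) ∧ Filtered deltaRep (piRep ρ)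
  /-- the theorem of Donkin and Mathieu on tensor products -/
  tensor : ∀ {V W : Type} [AddCommGroup V] [Module k V] [AddCommGroup W] [Module k W]
    (ρ : Representation k G V) (σ : Representation k G W), Module.Finite k V →
    Rational ρ ∧ Filtered nablaRep ρ → Rational σ ∧ Filtered nablaRep σ →
    Rational (ρ.tprod σ) ∧ Filtered nablaRep (ρ.tprod σ)
  /-- a vector of `M^U` is the image of a vector fixed by `U` of a tilting module (the maps
  `Δ(l) → M` extend to the tilting module with the highest weight `l`) -/
  highest : ∀ {M : Type} [AddCommGroup M] [Module k M] (ρ : Representation k G M),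
    Rational ρ ∧ Filtered nablaRep ρ → ∀ m : M, Fixed U ρ m →
    ∃ (T : Type) (_ : AddCommGroup T) (_ : Module k T) (τ : Representation k G T) (v : T)
      (f : T →ₗ[k] M), Module.Finite k T ∧ (Rational τ ∧ Filtered nablaRep τ) ∧
      Filtered deltaRep τ ∧
      Fixed U τ v ∧ Equivariant τ ρ f ∧ f v = m
  /-- the theorem of Grosshans: `M^U` is a finitely generated module over `S^U` -/
  grosshans : ∀ {S M : Type} [CommRing S] [Algebra k S] [AddCommGroup M] [Module k M] [Module S M]
    [IsScalarTower k S M] (σ : Representation k G S) (ρ : Representation k G M),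
    IsGAlgebra σ → IsGModule σ ρ → Rational σ ∧ Filtered nablaRep σ →
    Rational ρ ∧ Filtered nablaRep ρ →
    Algebra.FiniteType k S → Module.Finite S M →
    ∃ (r : ℕ) (m : Fin r → M), (∀ i, Fixed U ρ (m i)) ∧ ∀ x, Fixed U ρ x →
      ∃ s : Fin r → S, (∀ i, Fixed U σ (s i)) ∧ x = ∑ i, s i • m i

attribute [instance] Reductive.nablaGroup Reductive.nablaModule Reductive.deltaGroup
  Reductive.deltaModule

namespace Reductive

variable {k G : Type} [Field k] [Group G] (R : Reductive k G)

/-- `V` is a rational module with a good filtration. -/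
def Good {V : Type} [AddCommGroup V] [Module k V] (ρ : Representation k G V) : Prop :=
  R.Rational ρ ∧ Filtered R.nablaRep ρ

/-- `T` is a tilting module. -/
def Tilting {T : Type} [AddCommGroup T] [Module k T] (τ : Representation k G T) : Prop :=
  Module.Finite k T ∧ (R.Rational τ ∧ Filtered R.nablaRep τ) ∧ Filtered R.deltaRep τ

/-- A homomorphism of modules with good filtrations which is surjective on the vectors fixed by `U` is
surjective and its kernel has a good filtration. -/
theorem ker_good {A B : Type} [AddCommGroup A] [Module k A] [AddCommGroup B] [Module k B]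
    (α : Representation k G A) (β : Representation k G B) (hα : R.Good α) (hβ : R.Good β)
    (φ : A →ₗ[k] B) (hφ : Equivariant α β φ)
    (h : ∀ b, Fixed R.U β b → ∃ a, Fixed R.U α a ∧ φ a = b)
    (hk : ∀ g, LinearMap.ker φ ≤ (LinearMap.ker φ).comap (α g)) :
    Function.Surjective φ ∧ R.Good (α.subrepresentation (LinearMap.ker φ) hk) := by
  have h1 : R.Good (α.subrepresentation (LinearMap.ker φ) hk) := by
    refine R.sub α _ hk hα fun x hx => ?_
    obtain ⟨a, rfl⟩ := Submodule.Quotient.mk_surjective _ x
    have h2 : Fixed R.U β (φ a) := by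
      intro u hu
      have h3 := hx u hu
      change Submodule.Quotient.mk (α u a) = Submodule.Quotient.mk a at h3
      rw [Submodule.Quotient.eq, LinearMap.mem_ker, map_sub, sub_eq_zero, hφ] at h3
      exact h3
    obtain ⟨a', ha', he⟩ := h _ h2
    refine ⟨a', ha', ?_⟩
    rw [Submodule.Quotient.eq, LinearMap.mem_ker, map_sub, he, sub_self]
  refine ⟨?_, h1⟩
  have h2 : R.Good (α.quotient (LinearMap.ker φ) hk) := R.quot α _ hk hα h1
  have hr : ∀ g, LinearMap.range φ ≤ (LinearMap.range φ).comap (β g) := by
    rintro g _ ⟨a, rfl⟩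
    exact ⟨α g a, hφ g a⟩
  have h3 : R.Good (β.subrepresentation (LinearMap.range φ) hr) := by
    refine R.good_equiv _ _ φ.quotKerEquivRange ?_ h2
    intro g x
    obtain ⟨a, rfl⟩ := Submodule.Quotient.mk_surjective _ x
    apply Subtype.ext
    exact hφ g a
  have h4 : LinearMap.range φ = ⊤ := by
    refine R.fixed β _ hr hβ fun x hx => ?_
    obtain ⟨b, hb, rfl⟩ := R.lift β _ hr hβ h3 x hx
    obtain ⟨a, -, rfl⟩ := h b hb
    exact (Submodule.Quotient.mk_eq_zero _).2 ⟨a, rfl⟩
  exact LinearMap.range_eq_top.1 h4

end Reductive

theorem result {k G : Type} [Field k] [Group G] (R : Reductive k G)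
    {S M : Type} [CommRing S] [Algebra k S] [AddCommGroup M] [Module k M] [Module S M]
    [IsScalarTower k S M] (σ : Representation k G S) (ρ : Representation k G M)
    (hS : IsGAlgebra σ) (hM : IsGModule σ ρ) (hSf : Algebra.FiniteType k S) (hMf : Module.Finite S M)
    (hSg : R.Good σ) (hMg : R.Good ρ) :
    ∃ (T : Type) (_ : AddCommGroup T) (_ : Module k T) (τ : Representation k G T)
      (φ : T ⊗[k] S →ₗ[k] M) (hk : ∀ g, LinearMap.ker φ ≤ (LinearMap.ker φ).comap ((τ.tprod σ) g)),
      R.Tilting τ ∧ Equivariant (τ.tprod σ) ρ φ ∧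
      (∀ t (s s' : S), φ (t ⊗ₜ (s' * s)) = s' • φ (t ⊗ₜ s)) ∧
      Function.Surjective φ ∧ R.Good ((τ.tprod σ).subrepresentation (LinearMap.ker φ) hk) := by
  classical
  obtain ⟨r, m, hm, hgen⟩ := R.grosshans σ ρ hS hM hSg hMg hSf hMf
  choose T i1 i2 τ v f hT1 hT2 hT3 hv hf hfv using fun i => R.highest ρ hMg (m i) (hm i)
  let F : (∀ i, T i) →ₗ[k] M := ∑ i, (f i).comp (LinearMap.proj i)
  have hF : ∀ t, F t = ∑ i, f i (t i) := by
    intro t
    simp [F, LinearMap.sum_apply]
  let φ : (∀ i, T i) ⊗[k] S →ₗ[k] M :=
    TensorProduct.lift ((LinearMap.flip (Algebra.lsmul k k M).toLinearMap).comp F)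
  have hφ : ∀ t (s : S), φ (t ⊗ₜ s) = s • F t := fun t s => rfl
  have hFe : Equivariant (piRep τ) ρ F := by
    intro g t
    rw [hF, hF, map_sum]
    exact Finset.sum_congr rfl fun i _ => hf i g (t i)
  have hφe : Equivariant ((piRep τ).tprod σ) ρ φ := by
    intro g x
    induction x using TensorProduct.induction_on with
    | zero => simp
    | tmul t s =>
      change φ (piRep τ g t ⊗ₜ σ g s) = ρ g (φ (t ⊗ₜ s))
      rw [hφ, hφ, hM, hFe]
    | add x y hx hy => rw [map_add, map_add, hx, hy, map_add, map_add]
  have hk : ∀ g, LinearMap.ker φ ≤ (LinearMap.ker φ).comap (((piRep τ).tprod σ) g) := by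
    intro g x hx
    rw [Submodule.mem_comap, LinearMap.mem_ker, hφe, LinearMap.mem_ker.1 hx, map_zero]
  have hTs := R.tilting_sum τ fun i => ⟨hT1 i, hT2 i, hT3 i⟩
  have hTf : Module.Finite k (∀ i, T i) := Module.Finite.pi
  have hA : R.Good ((piRep τ).tprod σ) := R.tensor _ _ hTf hTs.1 hSg
  have hmain := R.ker_good _ _ hA hMg φ hφe (fun b hb => by
    obtain ⟨s, hs, rfl⟩ := hgen b hb
    refine ⟨∑ i, (Pi.single i (v i) : ∀ i, T i) ⊗ₜ s i, ?_, ?_⟩
    · intro u hu
      rw [map_sum]
      refine Finset.sum_congr rfl fun i _ => ?_
      change (piRep τ u (Pi.single i (v i))) ⊗ₜ (σ u (s i)) = _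
      rw [hs i u hu]
      congr 1
      ext j
      change τ j u ((Pi.single i (v i) : ∀ i, T i) j) = _
      by_cases hij : j = i
      · subst hij
        rw [Pi.single_eq_same]
        exact hv j u hu
      · rw [Pi.single_eq_of_ne hij, map_zero]
    · rw [map_sum]
      refine Finset.sum_congr rfl fun i _ => ?_
      rw [hφ, hF]
      congr 1
      rw [Finset.sum_eq_single i]
      · rw [Pi.single_eq_same]
        exact hfv i
      · intro j _ hj
        rw [Pi.single_eq_of_ne hj, map_zero]
      · intro hi
        exact absurd (Finset.mem_univ i) hi) hk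
  refine ⟨∀ i, T i, inferInstance, inferInstance, piRep τ, φ, hk, ⟨hTf, hTs.1, hTs.2⟩, hφe,
    fun t s s' => ?_, hmain.1, hmain.2⟩
  rw [hφ, hφ, mul_smul]

end Pool.Agent.Results.MP_720b6c_al.TiltingResolutions
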